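import Pool.Agent.W488.KS.Stm4

open Matrix Finset Module

namespace Pool.Agent.W137.KS

open Pool.Agent.W544.PG Pool.Agent.W488.KS

theorem rc_mul {l m n : ℕ} (P : Matrix (Fin l) (Fin m) ℚ) (Q : Matrix (Fin m) (Fin n) ℚ) :
    rc (P * Q) = rc P * rc Q := by
  unfold rc
  exact Matrix.map_mul (f := Rat.castHom ℂ)

theorem rc_one {n : ℕ} : rc (1 : Matrix (Fin n) (Fin n) ℚ) = 1 := by
  unfold rc
  exact Matrix.map_one _ (by simp) (by simp)

theorem rc_tr {l m : ℕ} (P : Matrix (Fin l) (Fin m) ℚ) : rc Pᵀ = (rc P)ᵀ := rfl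

theorem mC_rc {n : ℕ} (P : Matrix (Fin n) (Fin n) ℚ) : mC P = rc P := rfl

theorem rc_star {l m : ℕ} (P : Matrix (Fin l) (Fin m) ℚ) (v : Fin m → ℂ) :
    star (rc P *ᵥ v) = rc P *ᵥ star v := by
  funext i
  simp [Matrix.mulVec, dotProduct, rc]

theorem herm {a k : ℕ} (E : Matrix (Fin a) (Fin a) ℚ) (y : Matrix (Fin a) (Fin a) ℂ)
    (P : Matrix (Fin a) (Fin k) ℚ) (y1 : Matrix (Fin k) (Fin k) ℂ)
    (h : y * rc P = rc P * y1) (v : Fin k → ℂ) :
    star v ⬝ᵥ ((rc (Pᵀ * E * P) * ((2 * Complex.I) • y1)) *ᵥ v) =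
      star (rc P *ᵥ v) ⬝ᵥ ((rc E * ((2 * Complex.I) • y)) *ᵥ (rc P *ᵥ v)) := by
  rw [rc_star, rc_mul, rc_mul, rc_tr]
  have h1 : (rc P)ᵀ * rc E * rc P * ((2 * Complex.I) • y1) =
      (rc P)ᵀ * (rc E * ((2 * Complex.I) • y) * rc P) := by
    rw [Matrix.mul_smul, Matrix.mul_assoc, ← h, Matrix.mul_smul, Matrix.smul_mul, Matrix.mul_smul]
    simp only [Matrix.mul_assoc]
  rw [h1, ← Matrix.mulVec_mulVec, Matrix.dotProduct_mulVec, ← Matrix.mulVec_transpose,
    Matrix.transpose_transpose, Matrix.mulVec_mulVec]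

/-- the image of an idempotent -/
theorem idem {a : ℕ} (A : HW a) (e : Matrix (Fin a) (Fin a) ℚ) (he : e * e = e)
    (hc : rc e * A.y = A.y * rc e) (h1 : e ≠ 1) :
    ∃ (k : ℕ) (A1 : HW k) (P : Matrix (Fin a) (Fin k) ℚ) (L : Matrix (Fin k) (Fin a) ℚ), k < a ∧
      A.y * rc P = rc P * A1.y ∧ e = P * L := by
  obtain ⟨k, P, L, hka, hPL, hLP⟩ : ∃ (k : ℕ) (P : Matrix (Fin a) (Fin k) ℚ)
      (L : Matrix (Fin k) (Fin a) ℚ), k ≤ a ∧ P * L = e ∧ L * P = 1 := by
    let f := Matrix.toLin' e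
    let b := Module.finBasis ℚ (LinearMap.range f)
    let Pl : (Fin (finrank ℚ (LinearMap.range f)) → ℚ) →ₗ[ℚ] (Fin a → ℚ) :=
      (LinearMap.range f).subtype ∘ₗ b.equivFun.symm.toLinearMap
    let Ll : (Fin a → ℚ) →ₗ[ℚ] (Fin (finrank ℚ (LinearMap.range f)) → ℚ) :=
      b.equivFun.toLinearMap ∘ₗ f.rangeRestrict
    have hf : ∀ x, f (f x) = f x := by
      intro x
      change Matrix.toLin' e (Matrix.toLin' e x) = Matrix.toLin' e x
      rw [← LinearMap.comp_apply, ← Matrix.toLin'_mul, he]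
    refine ⟨finrank ℚ (LinearMap.range f), LinearMap.toMatrix' Pl, LinearMap.toMatrix' Ll, ?_, ?_,
      ?_⟩
    · have := Submodule.finrank_le (LinearMap.range f)
      simpa using this
    · rw [← LinearMap.toMatrix'_comp]
      have : Pl ∘ₗ Ll = f := by
        refine LinearMap.ext fun x => ?_
        simp [Pl, Ll]
      rw [this]
      exact LinearMap.toMatrix'_toLin' e
    · rw [← LinearMap.toMatrix'_comp]
      have : Ll ∘ₗ Pl = LinearMap.id := by
        refine LinearMap.ext fun x => ?_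
        have h2 : f.rangeRestrict ((b.equivFun.symm x : LinearMap.range f) : Fin a → ℚ) =
            b.equivFun.symm x := by
          apply Subtype.ext
          obtain ⟨z, hz⟩ := (b.equivFun.symm x).2
          change f ((b.equivFun.symm x : LinearMap.range f) : Fin a → ℚ) = _
          rw [← hz, hf]
        change b.equivFun (f.rangeRestrict
          ((b.equivFun.symm x : LinearMap.range f) : Fin a → ℚ)) = x
        rw [h2]
        exact LinearEquiv.apply_symm_apply _ _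
      rw [this, LinearMap.toMatrix'_id]
  have hlt : k < a := by
    rcases hka.lt_or_eq with h | h
    · exact h
    · subst h
      exact absurd (hPL.symm.trans (mul_eq_one_comm.1 hLP)) h1
  have hLP' : rc L * rc P = 1 := by rw [← rc_mul, hLP, rc_one]
  have hPL' : rc P * rc L = rc e := by rw [← rc_mul, hPL]
  have hy : A.y * rc P = rc P * (rc L * A.y * rc P) := by
    calc A.y * rc P = A.y * (rc P * (rc L * rc P)) := by rw [hLP', Matrix.mul_one]
      _ = (A.y * rc e) * rc P := by rw [← hPL']; simp only [Matrix.mul_assoc]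
      _ = (rc e * A.y) * rc P := by rw [hc]
      _ = _ := by rw [← hPL']; simp only [Matrix.mul_assoc]
  refine ⟨k, ⟨Pᵀ * A.E * P, ?_, rc L * A.y * rc P, ?_, ?_, ?_, ?_⟩, P, L, hlt, hy, hPL.symm⟩
  · rw [Matrix.transpose_mul, Matrix.transpose_mul, Matrix.transpose_transpose, A.alt]
    simp [Matrix.mul_assoc]
  · have h3 : (rc L * A.y * rc P) * (rc L * A.y * rc P) = rc L * (A.y * A.y) * rc P := by
      calc _ = rc L * A.y * (rc P * (rc L * A.y * rc P)) := by simp only [Matrix.mul_assoc]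
        _ = _ := by rw [← hy]; simp only [Matrix.mul_assoc]
    rw [h3]
    calc (4 : ℂ) • (rc L * (A.y * A.y) * rc P) = rc L * ((4 : ℂ) • (A.y * A.y)) * rc P := by
          rw [Matrix.mul_smul, Matrix.smul_mul]
      _ = 1 := by rw [A.sq, Matrix.mul_one, hLP']
  · have h4 : ∀ {l m : ℕ} (Q : Matrix (Fin l) (Fin m) ℚ), (rc Q).map (starRingEnd ℂ) = rc Q := by
      intro l m Q
      ext i j
      simp [rc]
    rw [Matrix.map_mul, Matrix.map_mul, h4, h4, A.real]
    simp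
  · have h5 := A.skew
    rw [mC_rc] at h5
    rw [mC_rc]
    calc (rc L * A.y * rc P)ᵀ * rc (Pᵀ * A.E * P) + rc (Pᵀ * A.E * P) * (rc L * A.y * rc P)
        = (rc P * (rc L * A.y * rc P))ᵀ * (rc A.E * rc P) +
          (rc P)ᵀ * rc A.E * (rc P * (rc L * A.y * rc P)) := by
          rw [rc_mul, rc_mul, rc_tr, Matrix.transpose_mul (rc P)]
          simp only [Matrix.mul_assoc]
      _ = (rc P)ᵀ * (A.yᵀ * rc A.E + rc A.E * A.y) * rc P := by
          rw [← hy, Matrix.transpose_mul, Matrix.mul_add, Matrix.add_mul]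
          simp only [Matrix.mul_assoc]
      _ = 0 := by rw [h5]; simp
  · intro v hv
    rw [mC_rc, herm A.E A.y P _ hy v]
    refine A.pos _ fun h0 => hv ?_
    have : rc L *ᵥ (rc P *ᵥ v) = v := by rw [Matrix.mulVec_mulVec, hLP', Matrix.one_mulVec]
    rw [← this, h0, Matrix.mulVec_zero]

/-- a nontrivial idempotent -/
theorem exidem {a : ℕ} (A : HW a) (P0 : Matrix (Fin a) (Fin a) ℚ) (hc : mC P0 * A.y = A.y * mC P0)
    (h0 : P0 ≠ 0) (hu : ¬ IsUnit P0) : ∃ e : Matrix (Fin a) (Fin a) ℚ, e * e = e ∧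
      rc e * A.y = A.y * rc e ∧ e ≠ 0 ∧ e ≠ 1 := by
  rw [mC_rc] at hc
  obtain ⟨k, P, C, D, h1, h2, hinj⟩ : ∃ (k : ℕ) (P : Matrix (Fin a) (Fin k) ℚ)
      (C : Matrix (Fin a) (Fin k) ℚ) (D : Matrix (Fin k) (Fin a) ℚ), P = P0 * C ∧ P0 = P * D ∧
      ∀ u, P *ᵥ u = 0 → u = 0 := by
    let f := Matrix.toLin' P0
    let b := Module.finBasis ℚ (LinearMap.range f)
    obtain ⟨g, hg⟩ := LinearMap.exists_rightInverse_of_surjective f.rangeRestrict
      f.range_rangeRestrict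
    let Pl : (Fin (finrank ℚ (LinearMap.range f)) → ℚ) →ₗ[ℚ] (Fin a → ℚ) :=
      (LinearMap.range f).subtype ∘ₗ b.equivFun.symm.toLinearMap
    let Dl : (Fin a → ℚ) →ₗ[ℚ] (Fin (finrank ℚ (LinearMap.range f)) → ℚ) :=
      b.equivFun.toLinearMap ∘ₗ f.rangeRestrict
    let Cl : (Fin (finrank ℚ (LinearMap.range f)) → ℚ) →ₗ[ℚ] (Fin a → ℚ) :=
      g ∘ₗ b.equivFun.symm.toLinearMap
    refine ⟨finrank ℚ (LinearMap.range f), LinearMap.toMatrix' Pl, LinearMap.toMatrix' Cl,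
      LinearMap.toMatrix' Dl, ?_, ?_, ?_⟩
    · have h3 : f ∘ₗ Cl = Pl := by
        refine LinearMap.ext fun x => ?_
        have h4 := LinearMap.congr_fun hg (b.equivFun.symm x)
        have h5 := congrArg Subtype.val h4
        exact h5
      rw [← h3, LinearMap.toMatrix'_comp]
      congr 1
      exact LinearMap.toMatrix'_toLin' P0
    · rw [← LinearMap.toMatrix'_comp]
      have : Pl ∘ₗ Dl = f := by
        refine LinearMap.ext fun x => ?_
        simp [Pl, Dl]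
      rw [this]
      exact (LinearMap.toMatrix'_toLin' P0).symm
    · intro u hu
      rw [LinearMap.toMatrix'_mulVec] at hu
      have h6 : (b.equivFun.symm u) = 0 := Subtype.ext hu
      exact (LinearEquiv.map_eq_zero_iff _).1 h6
  have hy : A.y * rc P = rc P * (rc D * A.y * rc C) := by
    calc A.y * rc P = (A.y * rc P0) * rc C := by rw [h1, rc_mul, Matrix.mul_assoc]
      _ = (rc P0 * A.y) * rc C := by rw [hc]
      _ = _ := by rw [h2, rc_mul]; simp only [Matrix.mul_assoc]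
  obtain ⟨y1, hy1⟩ : ∃ y1, y1 = rc D * A.y * rc C := ⟨_, rfl⟩
  rw [← hy1] at hy
  have hE1 : (Pᵀ * A.E * P).det ≠ 0 := by
    intro hdet
    obtain ⟨u, hu0, hu1⟩ := Matrix.exists_mulVec_eq_zero_iff.2 hdet
    have h7 : ((Pᵀ * A.E * P)ᵀ) *ᵥ u = 0 := by
      have : (Pᵀ * A.E * P)ᵀ = -(Pᵀ * A.E * P) := by
        rw [Matrix.transpose_mul, Matrix.transpose_mul, Matrix.transpose_transpose, A.alt]
        simp [Matrix.mul_assoc]
      rw [this, Matrix.neg_mulVec, hu1, neg_zero]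
    let w : Fin k → ℂ := fun i => (u i : ℂ)
    have hw : ∀ {l : ℕ} (Q : Matrix (Fin l) (Fin k) ℚ), rc Q *ᵥ w = fun i => ((Q *ᵥ u) i : ℂ) := by
      intro l Q
      funext i
      simp [w, rc, Matrix.mulVec, dotProduct]
    have hsw : star w = w := by
      funext i
      simp [w]
    have h8 : rc P *ᵥ w ≠ 0 := by
      intro h
      apply hu0
      apply hinj
      funext i
      have h9 : ((P *ᵥ u) i : ℂ) = 0 := by
        have h9' := congrFun h i
        rw [hw] at h9'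
        exact h9'
      show (P *ᵥ u) i = 0
      exact_mod_cast h9
    have h10 := A.pos _ h8
    rw [mC_rc, ← herm A.E A.y P y1 hy w, hsw, ← Matrix.mulVec_mulVec, Matrix.dotProduct_mulVec,
      ← Matrix.mulVec_transpose, ← rc_tr, hw, h7] at h10
    simp at h10
  have hE1u : IsUnit (Pᵀ * A.E * P).det := isUnit_iff_ne_zero.2 hE1
  obtain ⟨F, hF⟩ : ∃ F, F = Pᵀ * A.E * P := ⟨_, rfl⟩
  rw [← hF] at hE1u
  have hFi : F⁻¹ * F = 1 := Matrix.nonsing_inv_mul _ hE1u
  have hiF : F * F⁻¹ = 1 := Matrix.mul_nonsing_inv _ hE1u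
  have hskew := A.skew
  rw [mC_rc] at hskew
  have hEy : rc A.E * A.y = -(A.yᵀ * rc A.E) := by
    rw [eq_neg_iff_add_eq_zero, add_comm]
    exact hskew
  have hFy : rc F * y1 = -(y1ᵀ * rc F) := by
    calc rc F * y1 = (rc P)ᵀ * (rc A.E * (rc P * y1)) := by
          rw [hF, rc_mul, rc_mul, rc_tr]; simp only [Matrix.mul_assoc]
      _ = (rc P)ᵀ * ((rc A.E * A.y) * rc P) := by rw [← hy, Matrix.mul_assoc]
      _ = -((A.y * rc P)ᵀ * (rc A.E * rc P)) := by
          rw [hEy, Matrix.transpose_mul]; simp [Matrix.mul_assoc]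
      _ = _ := by
          rw [hy, Matrix.transpose_mul, hF, rc_mul, rc_mul, rc_tr]; simp only [Matrix.mul_assoc]
  have hFi' : rc F⁻¹ * rc F = 1 := by rw [← rc_mul, hFi, rc_one]
  have hiF' : rc F * rc F⁻¹ = 1 := by rw [← rc_mul, hiF, rc_one]
  have hyF : y1 * rc F⁻¹ = -(rc F⁻¹ * y1ᵀ) := by
    calc y1 * rc F⁻¹ = rc F⁻¹ * (rc F * y1) * rc F⁻¹ := by
          rw [← Matrix.mul_assoc, hFi', Matrix.one_mul]
      _ = -(rc F⁻¹ * y1ᵀ * (rc F * rc F⁻¹)) := by rw [hFy]; simp [Matrix.mul_assoc]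
      _ = _ := by rw [hiF', Matrix.mul_one]
  refine ⟨P * F⁻¹ * Pᵀ * A.E, ?_, ?_, ?_, ?_⟩
  · calc P * F⁻¹ * Pᵀ * A.E * (P * F⁻¹ * Pᵀ * A.E) = P * F⁻¹ * (Pᵀ * A.E * P) * F⁻¹ * Pᵀ * A.E := by
          simp only [Matrix.mul_assoc]
      _ = P * (F⁻¹ * F) * F⁻¹ * Pᵀ * A.E := by rw [← hF]; simp only [Matrix.mul_assoc]
      _ = _ := by rw [hFi, Matrix.mul_one]
  · rw [rc_mul, rc_mul, rc_mul, rc_tr]
    calc rc P * rc F⁻¹ * (rc P)ᵀ * rc A.E * A.y = rc P * rc F⁻¹ * ((rc P)ᵀ * (rc A.E * A.y)) := by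
          simp only [Matrix.mul_assoc]
      _ = -(rc P * rc F⁻¹ * ((A.y * rc P)ᵀ * rc A.E)) := by
          rw [hEy, Matrix.transpose_mul]; simp [Matrix.mul_assoc]
      _ = rc P * (-(rc F⁻¹ * y1ᵀ)) * ((rc P)ᵀ * rc A.E) := by
          rw [hy, Matrix.transpose_mul]; simp [Matrix.mul_assoc]
      _ = (rc P * y1) * rc F⁻¹ * ((rc P)ᵀ * rc A.E) := by rw [← hyF]; simp only [Matrix.mul_assoc]
      _ = _ := by rw [← hy]; simp only [Matrix.mul_assoc]
  · intro h
    apply h0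
    have h11 : P * F⁻¹ * Pᵀ * A.E * P = P := by
      calc _ = P * F⁻¹ * (Pᵀ * A.E * P) := by simp only [Matrix.mul_assoc]
        _ = P := by rw [← hF, Matrix.mul_assoc, hFi, Matrix.mul_one]
    rw [h, Matrix.zero_mul] at h11
    rw [h2, ← h11, Matrix.zero_mul]
  · intro h
    apply hu
    have h12 : P0 * (C * (F⁻¹ * Pᵀ * A.E)) = 1 := by
      rw [← Matrix.mul_assoc, ← h1]
      simpa only [Matrix.mul_assoc] using h
    exact (Matrix.isUnit_iff_isUnit_det _).2 (Matrix.isUnit_det_of_right_inverse h12)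

theorem side {b : ℕ} {ι : Type} : ∀ (a : ℕ) (A : HW a) (M : ι → Matrix (Fin a) (Fin b) ℚ),
    (∃ i, M i ≠ 0) → ∃ (a' : ℕ) (A' : HW a') (P : Matrix (Fin a) (Fin a') ℚ), Simple A' ∧
      A.y * rc P = rc P * A'.y ∧ ∃ i, Pᵀ * M i ≠ 0 := by
  intro a
  induction a using Nat.strong_induction_on with
  | _ a ih =>
    intro A M hM
    by_cases hs : Simple A
    · refine ⟨a, A, 1, hs, ?_, ?_⟩
      · rw [rc_one, Matrix.mul_one, Matrix.one_mul]
      · obtain ⟨i, hi⟩ := hM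
        exact ⟨i, by simpa using hi⟩
    · unfold Simple at hs
      push Not at hs
      obtain ⟨P0, hc, h0, hu⟩ := hs
      obtain ⟨e, he, hec, he0, he1⟩ := exidem A P0 hc h0 hu
      have key : ∀ e : Matrix (Fin a) (Fin a) ℚ, e * e = e → rc e * A.y = A.y * rc e → e ≠ 1 →
          (∃ i, eᵀ * M i ≠ 0) → ∃ (a' : ℕ) (A' : HW a') (P : Matrix (Fin a) (Fin a') ℚ),
            Simple A' ∧ A.y * rc P = rc P * A'.y ∧ ∃ i, Pᵀ * M i ≠ 0 := by
        intro e he hec he1 hi
        obtain ⟨k, A1, P, L, hk, hy, heq⟩ := idem A e he hec he1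
        obtain ⟨a', A', P', hs', hy', i, hi'⟩ := ih k hk A1 (fun i => Pᵀ * M i) (by
          obtain ⟨i, hi⟩ := hi
          refine ⟨i, fun h => hi ?_⟩
          rw [heq, Matrix.transpose_mul, Matrix.mul_assoc, h, Matrix.mul_zero])
        refine ⟨a', A', P * P', hs', ?_, i, ?_⟩
        · rw [rc_mul, ← Matrix.mul_assoc, hy, Matrix.mul_assoc, hy', Matrix.mul_assoc]
        · rw [Matrix.transpose_mul, Matrix.mul_assoc]
          exact hi'
      by_cases h1 : ∃ i, eᵀ * M i ≠ 0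
      · exact key e he hec he1 h1
      · push Not at h1
        refine key (1 - e) ?_ ?_ ?_ ?_
        · have h13 : (1 - e) * (1 - e) = 1 - e - (e - e * e) := by
            rw [Matrix.mul_sub, Matrix.sub_mul, Matrix.sub_mul, Matrix.mul_one, Matrix.one_mul,
              Matrix.mul_one]
          rw [h13, he, sub_self, sub_zero]
        · have h2 : rc (1 - e) = 1 - rc e := by
            ext i j
            simp [rc, Matrix.one_apply]
            split_ifs <;> simp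
          rw [h2, Matrix.sub_mul, Matrix.mul_sub, hec, Matrix.one_mul, Matrix.mul_one]
        · intro h
          apply he0
          have : e = 1 - (1 - e) := by abel
          rw [this, h, sub_self]
        · obtain ⟨i, hi⟩ := hM
          refine ⟨i, ?_⟩
          rw [Matrix.transpose_sub, Matrix.transpose_one, Matrix.sub_mul, Matrix.one_mul, h1 i,
            sub_zero]
          exact hi

theorem red : S_red := by
  intro n a b A B Θ hΘ
  obtain ⟨a', A', P, hA', hy, hP⟩ := side a A Θ hΘ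
  obtain ⟨b', B', R, hB', hy', i, hR⟩ := side b B (fun i => (Pᵀ * Θ i)ᵀ) (by
    obtain ⟨i, hi⟩ := hP
    exact ⟨i, fun h => hi (by rw [← Matrix.transpose_eq_zero, h])⟩)
  refine ⟨a', b', A', B', P, R, hA', hB', hy, hy', i, fun h => hR ?_⟩
  rw [← Matrix.transpose_mul, h, Matrix.transpose_zero]

end Pool.Agent.W137.KS
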